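import Mathlib

set_option autoImplicit false
open Multiset

namespace Pool.Agent.H.MP_593b6a_co

def G (u v : ℕ) : Prop := (u = v + 1 ∨ u = v + 2 ∨ v = u + 1 ∨ v = u + 2) ∧ (u + v ≠ 4 ∨ u * v ≠ 3)

def R (A B : Multiset ℕ) : Prop := ∃ u v C, G u v ∧ A = u ::ₘ C ∧ B = v ::ₘ C

theorem ac (s : Multiset ℕ) (c : ℕ) : s + {c} = c ::ₘ s := by rw [add_comm, singleton_add]

theorem G.symm {u v : ℕ} (h : G u v) : G v u := ⟨by have := h.1; omega, by
  rw [add_comm, mul_comm]; exact h.2⟩

theorem R.symm {A B : Multiset ℕ} : R A B → R B A := fun ⟨u, v, C, h, a, b⟩ => ⟨v, u, C, h.symm, b, a⟩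

inductive P : Set (Multiset ℕ) → Multiset ℕ → Multiset ℕ → Prop
  | one (p : Multiset ℕ) : P {p} p p
  | cons {T : Set (Multiset ℕ)} {p q r : Multiset ℕ} : R p q → P T q r → p ∉ T → P (insert p T) p r

variable {T U : Set (Multiset ℕ)} {p q p' q' : Multiset ℕ}

theorem P.app (h : P T p q) (e : R q p') (k : P U p' q') (d : ∀ x ∈ T, x ∉ U) : P (T ∪ U) p q' := by
  induction h with
  | one p => exact .cons e k (d _ rfl)
  | cons a _ c ih =>
    rw [Set.insert_union]
    exact .cons a (ih e fun x hx => d x (.inr hx)) fun h => h.elim c (d _ (.inl rfl))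

theorem P.cg (h : P T p q) (e : ∀ x, x ∈ T ↔ x ∈ U) (a : p = p') (b : q = q') : P U p' q' := by
  rwa [← Set.ext e, ← a, ← b]

theorem P.rev (h : P T p q) : P T q p := by
  induction h with
  | one p => exact .one p
  | cons a _ c ih => exact (ih.app a.symm (.one _) fun x hx e => c (e ▸ hx)).cg (by simp) rfl rfl

theorem P.sh (h : P T p q) (c : Multiset ℕ) : P ((c + ·) '' T) (c + p) (c + q) := by
  induction h with
  | one p => simpa using P.one _
  | cons a _ d ih =>
    rw [Set.image_insert_eq]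
    obtain ⟨u, v, C, h, rfl, rfl⟩ := a
    exact .cons ⟨u, v, c + C, h, by simp, by simp⟩ ih fun ⟨x, hx, e⟩ => d (add_left_cancel e ▸ hx)

def M (n k : ℕ) : Set (Multiset ℕ) := {x | card x = k ∧ ∀ i ∈ x, i < n}

theorem P.snoc {n k : ℕ} (h : P (M n k \ {q'}) p q) (e : R q q') (m : q' ∈ M n k) :
    P (M n k) p q' := (h.app e (.one _) (by simp)).cg (by simpa using m) rfl rfl

theorem lev {n j d : ℕ} {x : Multiset ℕ} : x ∈ (replicate d n + ·) '' M n j ↔
    x ∈ M (n + 1) (j + d) ∧ count n x = d := by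
  constructor
  · rintro ⟨y, ⟨h1, h2⟩, rfl⟩
    refine ⟨⟨by simp [h1, add_comm], fun i hi => ?_⟩, by
      simpa using fun h => (h2 n h).false⟩
    rcases mem_add.1 hi with h | h
    · simp [eq_of_mem_replicate h]
    · exact (h2 i h).trans (by simp)
  · rintro ⟨⟨h1, h2⟩, rfl⟩
    have := filter_add_not (· = n) x
    rw [filter_eq'] at this
    refine ⟨_, ⟨?_, fun i hi => ?_⟩, this⟩
    · have := congrArg card this
      simp only [card_add, card_replicate] at this; omega
    · have := h2 i (mem_of_mem_filter hi); have := of_mem_filter hi; omega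

theorem two {n k c : ℕ} {α β : ℕ → Multiset ℕ} (hc : c < n) (hG : G n c)
    (hA : ∀ j, 1 ≤ j → j ≤ k → P (M n j \ {replicate j c}) (α j) (β j))
    (ht : ∀ j, 1 ≤ j → j < k → ∃ f, G n f ∧ α (j + 1) = f ::ₘ β j) (hl : R (β k) (replicate k c))
    (d j : ℕ) (e : j + d = k) (hj : 1 ≤ j) :
    ∃ γ, P ({x | x ∈ M (n + 1) k ∧ count n x ≤ d} \ {replicate d n + replicate j c})
      (replicate d n + α j) γ ∧ R γ (replicate d n + replicate j c) ∧
      ∀ e, d = e + 1 → γ = replicate e n + replicate (j + 1) c := by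
  have L : ∀ d j x, x ∈ (replicate d n + ·) '' (M n j \ {replicate j c}) ↔ (x ∈ M (n + 1) (j + d) ∧
      count n x = d) ∧ x ≠ replicate d n + replicate j c := fun d j x => by
    rw [Set.image_diff (add_right_injective _), Set.image_singleton, Set.mem_diff, lev]; rfl
  have t : ∀ d j, replicate d n + replicate j c ∈ M (n + 1) (j + d) ∧
      count n (replicate d n + replicate j c) = d := fun d j => lev.1 ⟨_, ⟨by simp, fun i hi =>
        eq_of_mem_replicate hi ▸ hc⟩, rfl⟩
  induction d generalizing j with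
  | zero =>
    subst e
    exact ⟨_, ((hA j hj le_rfl).sh (replicate 0 n)).cg (fun x => by rw [L]; simp) rfl rfl,
      by simpa using hl, by simp⟩
  | succ d ih =>
    obtain ⟨γ, h1, h2, -⟩ := ih (j + 1) (by omega) (by omega)
    obtain ⟨f, h3, h4⟩ := ht j hj (by omega)
    have t1 := t d (j + 1)
    have t2 := t (d + 1) j
    rw [show j + 1 + d = k by omega] at t1
    refine ⟨_, (((hA j hj (by omega)).sh (replicate (d + 1) n)).app
      ⟨n, f, replicate d n + β j, h3, by simp [replicate_succ], by simp [h4]⟩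
      (h1.app h2 (.one _) (by simp)) fun x hx => ?_).cg (fun x => ?_) rfl rfl,
      ⟨c, n, replicate d n + replicate j c, hG.symm, by simp [replicate_succ],
        by simp [replicate_succ]⟩, fun e he => by rw [Nat.succ_injective he]⟩
    · rw [L] at hx
      rintro (h | rfl)
      · have := h.1.2; omega
      · omega
    · simp only [Set.mem_union, L, e, Set.mem_diff, Set.mem_setOf_eq, Set.mem_singleton_iff]
      grind

theorem top {n k : ℕ} {x : Multiset ℕ} : (x ∈ M (n + 1) (k + 1) ∧ count n x ≤ k) ↔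
    x ∈ M (n + 1) (k + 1) \ {replicate (k + 1) n} := by
  refine and_congr_right fun h => ⟨by rintro h rfl; simp at h, fun e => not_lt.1 fun l => e ?_⟩
  exact (eq_of_le_of_card_le (le_count_iff_replicate_le.1 l) (by simp [h.1])).symm

theorem two' {n k c : ℕ} {α β : ℕ → Multiset ℕ} (hc : c < n) (hG : G n c)
    (hA : ∀ j, 1 ≤ j → j ≤ k + 1 → P (M n j \ {replicate j c}) (α j) (β j))
    (ht : ∀ j, 1 ≤ j → j < k + 1 → ∃ f, G n f ∧ α (j + 1) = f ::ₘ β j)
    (hl : R (β (k + 1)) (replicate (k + 1) c)) :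
    P (M (n + 1) (k + 1) \ {replicate (k + 1) n}) (replicate k n + α 1) (c ::ₘ replicate k n) := by
  obtain ⟨γ, h1, h2, -⟩ := two hc hG hA ht hl k 1 (add_comm _ _) le_rfl
  have t := (lev (j := 1) (d := k)).1 ⟨replicate 1 c, ⟨by simp, fun i hi =>
    eq_of_mem_replicate hi ▸ hc⟩, rfl⟩
  rw [add_comm 1] at t
  refine (h1.app h2 (.one _) (by simp)).cg (fun x => ?_) rfl (by simp [ac, cons_swap])
  rw [← top]
  simp only [Set.mem_union, Set.mem_diff, Set.mem_setOf_eq, Set.mem_singleton_iff]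
  grind

theorem im {n j c : ℕ} (h : c < n) {x : Multiset ℕ} : x ∈ ({c} + ·) '' M n j ↔
    x ∈ M n (j + 1) ∧ c ∈ x := by
  constructor
  · rintro ⟨y, ⟨h1, h2⟩, rfl⟩
    exact ⟨⟨by simp [h1, add_comm], by simpa [h] using h2⟩, by simp⟩
  · rintro ⟨⟨h1, h2⟩, h3⟩
    obtain ⟨y, rfl⟩ := exists_cons_of_mem h3
    exact ⟨y, ⟨by simpa using h1, fun i hi => h2 i (mem_cons_of_mem hi)⟩, rfl⟩

theorem m2 {j a b : ℕ} (e : a + b = 1) {x : Multiset ℕ} (h : x ∈ M 2 j) :
    x = replicate j a ↔ b ∉ x := by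
  simp only [eq_replicate, h.1, true_and]
  exact ⟨fun u v => by have := u b v; omega, fun u v c => by
    have := h.2 v c; by_contra; exact u (by rwa [show b = v by omega])⟩

theorem edge0 (j : ℕ) : P (M 2 j) (replicate j 0) (replicate j 1) := by
  induction j with
  | zero => exact (P.one _).cg (by simp [M]) rfl rfl
  | succ j ih =>
    refine P.snoc ((ih.sh {0}).cg (fun x => ?_) rfl rfl) ⟨0, 1, replicate j 1, by simp [G], rfl, rfl⟩
      ⟨by simp, fun i hi => by simp [eq_of_mem_replicate hi]⟩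
    rw [im two_pos]; exact and_congr_right fun h => by
      rw [Set.mem_singleton_iff, m2 (a := 1) (b := 0) rfl h, not_not]

theorem edge (j : ℕ) : P (M 2 (j + 1) \ {replicate (j + 1) 0}) (1 ::ₘ replicate j 0)
    (replicate (j + 1) 1) := ((edge0 j).sh {1}).cg (fun x => by
  rw [im one_lt_two]; exact and_congr_right fun h => by
    rw [Set.mem_singleton_iff, m2 (a := 0) (b := 1) rfl h, not_not]) rfl rfl

theorem alt {n k c : ℕ} {E F : ℕ → Multiset ℕ} (i : ℕ)
    (hA : ∀ j, 1 ≤ j → P (M n j \ {replicate j c}) (E j) (F j))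
    (hE : ∀ j, 1 ≤ j → (j + i) % 2 = 1 → ∃ f, G n f ∧ E (j + 1) = f ::ₘ E j)
    (hF : ∀ j, 1 ≤ j → (j + i) % 2 = 0 → ∃ f, G n f ∧ F (j + 1) = f ::ₘ F j)
    (hl : R (if (k + i) % 2 = 0 then F k else E k) (replicate k c)) : ∃ α β : ℕ → Multiset ℕ,
      (∀ j, 1 ≤ j → j ≤ k → P (M n j \ {replicate j c}) (α j) (β j)) ∧
      (∀ j, 1 ≤ j → j < k → ∃ f, G n f ∧ α (j + 1) = f ::ₘ β j) ∧ R (β k) (replicate k c) ∧
      α 1 = if i % 2 = 1 then E 1 else F 1 := by
  refine ⟨fun j => if (j + i) % 2 = 0 then E j else F j,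
    fun j => if (j + i) % 2 = 0 then F j else E j, fun j h _ => ?_, fun j h _ => ?_, hl,
    if_congr (by omega) rfl rfl⟩
  · dsimp only; split_ifs; exacts [hA j h, (hA j h).rev]
  · dsimp only; split_ifs
    · omega
    · exact hE j h (by omega)
    · exact hF j h (by omega)
    · omega

theorem tri (j : ℕ) : P (M 3 (j + 1) \ {replicate (j + 1) 2}) (1 ::ₘ replicate j 2)
    (0 ::ₘ replicate j 2) := by
  obtain ⟨α, β, h1, h2, h3, h4⟩ := alt (n := 2) (k := j + 1) (c := 0)
    (E := fun j => 1 ::ₘ replicate (j - 1) 0) (F := fun j => replicate j 1) j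
    (fun j h => by obtain ⟨j, rfl⟩ := Nat.exists_eq_add_of_le' h; exact edge j)
    (fun j h _ => ⟨0, by simp [G], by
      obtain ⟨j, rfl⟩ := Nat.exists_eq_add_of_le' h; simp [replicate_succ, cons_swap]⟩)
    (fun j h _ => ⟨1, by simp [G], rfl⟩)
    (by rw [if_neg (by omega)]; exact ⟨1, 0, _, by simp [G], rfl, rfl⟩)
  exact (two' two_pos (by simp [G]) h1 h2 h3).cg (by simp) (by simp [h4, ac, cons_swap]) rfl

theorem paw (k : ℕ) : P (M 4 (k + 2) \ {replicate (k + 2) 3}) (1 ::ₘ replicate (k + 1) 3)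
      (2 ::ₘ replicate (k + 1) 3) ∧
    P (M 4 (k + 2) \ {replicate (k + 2) 3}) (2 ::ₘ 2 ::ₘ replicate k 3) (2 ::ₘ replicate (k + 1) 3) := by
  obtain ⟨α, β, h1, h2, h3, h4⟩ := alt (n := 3) (k := k + 2) (c := 2)
    (E := fun j => 1 ::ₘ replicate (j - 1) 2) (F := fun j => 0 ::ₘ replicate (j - 1) 2) 1
    (fun j h => by obtain ⟨j, rfl⟩ := Nat.exists_eq_add_of_le' h; exact tri j)
    (fun j h _ => ⟨2, by simp [G], by
      obtain ⟨j, rfl⟩ := Nat.exists_eq_add_of_le' h; simp [replicate_succ, cons_swap]⟩)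
    (fun j h _ => ⟨2, by simp [G], by
      obtain ⟨j, rfl⟩ := Nat.exists_eq_add_of_le' h; simp [replicate_succ, cons_swap]⟩)
    (by split_ifs; exacts [⟨0, 2, _, by simp [G], rfl, rfl⟩, ⟨1, 2, _, by simp [G], rfl, rfl⟩])
  refine ⟨(two' (by simp) (by simp [G]) h1 h2 h3).cg (by simp)
    (by simp [h4, ac, cons_swap]) rfl, ?_⟩
  obtain ⟨γ, a, -, b⟩ := two (by simp) (by simp [G]) h1 h2 h3 (k + 1) 1 (by omega) le_rfl
  have t := (lev (n := 3) (j := 1) (d := k + 1)).1 ⟨replicate 1 2, ⟨by simp, by simp⟩, rfl⟩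
  rw [add_comm 1] at t
  refine (a.rev.app (p' := replicate (k + 1) 3 + replicate 1 2) ⟨1, 2, replicate (k + 1) 3,
    by simp [G], by simp [h4, ac, cons_swap], by simp [ac, cons_swap]⟩ (.one _)
      (by simp)).cg (fun x => ?_) (by simp [b k rfl, ac, cons_swap])
        (by simp [ac, cons_swap])
  rw [← top]
  simp only [Set.mem_union, Set.mem_diff, Set.mem_setOf_eq, Set.mem_singleton_iff]
  grind

def I (a : ℕ) : Prop := P (M (a + 2) 1 \ {{a + 1}}) {1} {a} ∧
  P (M (a + 2) 2 \ {replicate 2 (a + 1)}) {a + 1, 1} {a, a + 1} ∧ ∃ b, G b (a + 1) ∧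
    ∀ k, P (M (a + 2) (k + 2) \ {replicate (k + 2) (a + 1)}) (b ::ₘ replicate (k + 1) (a + 1))
      (a ::ₘ replicate (k + 1) (a + 1))

theorem base : I 3 := by
  have p3 : P (M 4 1 \ {{3}}) {1} {2} := (((tri 0).snoc ⟨0, 2, 0, by simp [G], rfl, rfl⟩
    (by simp [M])).sh 0).cg (fun x => by
      rw [show (0 : Multiset ℕ) = replicate 0 3 from rfl, lev, ← replicate_one, ← top]; simp) rfl rfl
  refine ⟨((p3.snoc ⟨2, 3, 0, by simp [G], rfl, rfl⟩ (by simp [M])).sh 0).cg (fun x => by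
      rw [show (0 : Multiset ℕ) = replicate 0 4 from rfl, lev, ← replicate_one, ← top]; simp) rfl rfl,
    ?_, 2, by simp [G], fun k => ?_⟩
  · refine (two' (n := 4) (k := 1) (c := 3) (α := fun j => if j = 1 then {1} else {2, 2})
      (β := fun j => if j = 1 then {2} else {2, 3}) (by simp) (by simp [G]) (fun j a b => ?_)
      (fun j a b => ?_) ⟨2, 3, {3}, by simp [G], rfl, rfl⟩).cg (by simp) rfl rfl
    · interval_cases j; exacts [p3, (paw 0).2]
    · interval_cases j; exact ⟨2, by simp [G], rfl⟩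
  · refine (two' (n := 4) (k := k + 1) (c := 3) (α := fun j => if j = 1 then {2} else
      if j = 2 then {1, 3} else 2 ::ₘ 2 ::ₘ replicate (j - 2) 3)
      (β := fun j => if j = 1 then {1} else 2 ::ₘ replicate (j - 1) 3) (by simp) (by simp [G])
      (fun j a b => ?_) (fun j a b => ?_) ⟨2, 3, replicate (k + 1) 3, by simp [G], by simp, rfl⟩).cg
        (by simp) (by simp [ac, cons_swap]) rfl
    · rcases j with _ | _ | _ | j
      exacts [by omega, p3.rev, (paw 0).1, (paw (j + 1)).2]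
    · rcases j with _ | _ | j
      exacts [by omega, ⟨3, by simp [G], pair_comm 1 3⟩, ⟨2, by simp [G], by simp⟩]

theorem step {a : ℕ} (ha : 3 ≤ a) (h : I a) : I (a + 1) := by
  obtain ⟨h1, h2, b, hb, h3⟩ := h
  have g1 : G a (a + 1) := ⟨by omega, .inl (by omega)⟩
  have g2 : G (a + 2) (a + 1) := ⟨by omega, .inl (by omega)⟩
  refine ⟨((h1.snoc ⟨_, _, 0, g1, rfl, rfl⟩ (by simp [M])).sh 0).cg (fun x => by
      rw [show (0 : Multiset ℕ) = replicate 0 (a + 2) from rfl, lev, ← replicate_one, ← top]; simp)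
    rfl rfl, ?_, a, ⟨by omega, .inl (by omega)⟩, fun k => ?_⟩
  · refine (two' (n := a + 2) (k := 1) (c := a + 1) (α := fun j => if j = 1 then {1} else {a, a + 1})
      (β := fun j => if j = 1 then {a} else {b, a + 1}) (by simp) g2 (fun j a b => ?_)
      (fun j a b => ?_) ⟨b, a + 1, {a + 1}, hb, rfl, rfl⟩).cg (by simp) rfl rfl
    · interval_cases j; exacts [h1, (h3 0).rev]
    · interval_cases j; exact ⟨_, g2, pair_comm _ _⟩
  · obtain ⟨α, β, k1, k2, k3, k4⟩ := alt (n := a + 2) (k := k + 2) (c := a + 1)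
      (E := fun j => if j = 1 then {a} else a ::ₘ replicate (j - 1) (a + 1))
      (F := fun j => if j = 1 then {1} else if j = 2 then {a + 1, 1} else
        b ::ₘ replicate (j - 1) (a + 1)) 1
      (fun j h => by
        rcases j with _ | _ | _ | j
        exacts [by omega, h1.rev, h2.rev, (h3 (j + 1)).rev])
      (fun j h e => ⟨_, g2, by
        rcases j with _ | _ | j
        exacts [by omega, by omega, by simp [replicate_succ, cons_swap]]⟩)
      (fun j h e => ⟨_, g2, by
        rcases j with _ | _ | _ | j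
        exacts [by omega, rfl, by omega, by simp [replicate_succ, cons_swap]]⟩)
      (by
        split_ifs with h <;> try omega
        exacts [⟨b, _, _, hb, rfl, rfl⟩, ⟨a, _, _, g1, rfl, rfl⟩])
    exact (two' (by simp) g2 k1 k2 k3).cg (by simp) (by simp [k4, ac, cons_swap]) rfl

theorem all (a : ℕ) (ha : 3 ≤ a) : I a := by
  induction a, ha using Nat.le_induction with
  | base => exact base
  | succ a ha ih => exact step ha ih

end Pool.Agent.H.MP_593b6a_co
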